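import Mathlib

/-!
# Comparison of two trees

Helper file for MP_bd9785.  Nodes of trees are lists, `n :: a` is a successor of `a`.
-/

set_option autoImplicit false

open Set

namespace Q214.SG

/-- The map of nodes given by the labels `lab`, which keeps lengths. -/
def F0 (lab : List ℕ → ℕ) : List ℕ → List ℕ
  | [] => []
  | n :: a => lab (n :: a) :: F0 lab a

/-- The map of nodes given by the labels `lab`, which adds one to the length. -/
def F1 (lab : List ℕ → ℕ) : List ℕ → List ℕ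
  | [] => [lab []]
  | n :: a => lab (n :: a) :: F1 lab a

/-- Greatest simulation. -/
def Sim (S T : Set (List ℕ)) (a b : List ℕ) : Prop :=
  ∃ E : List ℕ → List ℕ → Prop, E a b ∧ ∀ a b, E a b → ∀ n, n :: a ∈ S →
    ∃ m, m :: b ∈ T ∧ E (n :: a) (m :: b)

theorem sim_iff (S T : Set (List ℕ)) (a b : List ℕ) :
    Sim S T a b ↔ ∀ n, n :: a ∈ S → ∃ m, m :: b ∈ T ∧ Sim S T (n :: a) (m :: b) := by
  constructor
  · rintro ⟨E, hE, hE2⟩ n hn
    obtain ⟨m, hm, hm2⟩ := hE2 a b hE n hn
    exact ⟨m, hm, E, hm2, hE2⟩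
  · intro h
    refine ⟨fun a' b' => Sim S T a' b' ∨ (a' = a ∧ b' = b), Or.inr ⟨rfl, rfl⟩, ?_⟩
    rintro a' b' (⟨E, hE, hE2⟩ | ⟨rfl, rfl⟩) n hn
    · obtain ⟨m, hm, hm2⟩ := hE2 a' b' hE n hn
      exact ⟨m, hm, Or.inl ⟨E, hm2, hE2⟩⟩
    · obtain ⟨m, hm, hm2⟩ := h n hn
      exact ⟨m, hm, Or.inl hm2⟩

/-- Trees. -/
def IsTr (S : Set (List ℕ)) : Prop := ∀ n a, n :: a ∈ S → a ∈ S

theorem compare {S T : Set (List ℕ)} (hS : IsTr S) (hT : IsTr T) :
    (∃ lab, ∀ s ∈ S, F0 lab s ∈ T) ∨ ∃ lab, ∀ t ∈ T, F1 lab t ∈ S := by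
  classical
  by_cases hTe : [] ∈ T
  swap
  · right
    refine ⟨fun _ => 0, fun t ht => ?_⟩
    exfalso
    induction t with
    | nil => exact hTe ht
    | cons n a ih => exact ih (hT n a ht)
  by_cases h : Sim S T [] []
  · left
    have hK : ∀ p : List ℕ × List ℕ × ℕ, ∃ m, Sim S T p.1 p.2.1 → p.2.2 :: p.1 ∈ S →
        m :: p.2.1 ∈ T ∧ Sim S T (p.2.2 :: p.1) (m :: p.2.1) := by
      rintro ⟨a, b, n⟩
      by_cases h1 : Sim S T a b ∧ n :: a ∈ S
      · obtain ⟨m, hm⟩ := (sim_iff S T a b).1 h1.1 n h1.2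
        exact ⟨m, fun _ _ => hm⟩
      · refine ⟨0, fun h2 h3 => absurd ⟨h2, h3⟩ h1⟩
    choose K hK using hK
    let f : List ℕ → List ℕ := fun l => List.rec (motive := fun _ => List ℕ) []
      (fun n a fa => K (a, fa, n) :: fa) l
    have hf : ∀ n a, f (n :: a) = K (a, f a, n) :: f a := fun n a => rfl
    let lab : List ℕ → ℕ := fun l => match l with
      | [] => 0
      | n :: a => K (a, f a, n)
    have hlab : ∀ l, F0 lab l = f l := by
      intro l
      induction l with
      | nil => rfl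
      | cons n a ih =>
        rw [F0, ih, hf]
    refine ⟨lab, fun s hs => ?_⟩
    rw [hlab]
    have key : ∀ s ∈ S, f s ∈ T ∧ Sim S T s (f s) := by
      intro s
      induction s with
      | nil => intro _; exact ⟨hTe, h⟩
      | cons n a ih =>
        intro hs
        obtain ⟨-, h1⟩ := ih (hS n a hs)
        rw [hf]
        exact hK (a, f a, n) h1 hs
    exact (key s hs).1
  · right
    have hne : ∀ a b, ¬ Sim S T a b → ∃ n, n :: a ∈ S ∧ ∀ m, m :: b ∈ T →
        ¬ Sim S T (n :: a) (m :: b) := by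
      intro a b hab
      rw [sim_iff] at hab
      push Not at hab
      exact hab
    obtain ⟨n0, hn0, hn0'⟩ := hne _ _ h
    have hK : ∀ p : List ℕ × List ℕ, ∃ k, ¬ Sim S T p.1 p.2 → k :: p.1 ∈ S ∧
        ∀ m, m :: p.2 ∈ T → ¬ Sim S T (k :: p.1) (m :: p.2) := by
      rintro ⟨a, b⟩
      by_cases h1 : Sim S T a b
      · exact ⟨0, fun h2 => absurd h1 h2⟩
      · obtain ⟨n, hn⟩ := hne a b h1
        exact ⟨n, fun _ => hn⟩
    choose K hK using hK
    let f : List ℕ → List ℕ := fun l => List.rec (motive := fun _ => List ℕ) [n0]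
      (fun n a fa => K (fa, n :: a) :: fa) l
    have hf : ∀ n a, f (n :: a) = K (f a, n :: a) :: f a := fun n a => rfl
    let lab : List ℕ → ℕ := fun l => match l with
      | [] => n0
      | n :: a => K (f a, n :: a)
    have hlab : ∀ l, F1 lab l = f l := by
      intro l
      induction l with
      | nil => rfl
      | cons n a ih =>
        rw [F1, ih, hf]
    refine ⟨lab, fun t ht => ?_⟩
    rw [hlab]
    have key : ∀ t ∈ T, f t ∈ S ∧ ∀ m, m :: t ∈ T → ¬ Sim S T (f t) (m :: t) := by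
      intro t
      induction t with
      | nil => intro _; exact ⟨hn0, hn0'⟩
      | cons n a ih =>
        intro ht
        obtain ⟨-, h1⟩ := ih (hT n a ht)
        rw [hf]
        exact hK (f a, n :: a) (h1 n ht)
    exact (key t ht).1

/-- Initial segments of a branch, written backwards. -/
def rb (f : ℕ → ℕ) : ℕ → List ℕ
  | 0 => []
  | n + 1 => f n :: rb f n

lemma rb_length (f : ℕ → ℕ) (n : ℕ) : (rb f n).length = n := by
  induction n with
  | zero => rfl
  | succ n ih => simp [rb, ih]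

/-- The image of a branch under `F0` is a branch. -/
lemma F0_rb (lab : List ℕ → ℕ) (f : ℕ → ℕ) :
    ∀ n, F0 lab (rb f n) = rb (fun n => lab (rb f (n + 1))) n := by
  intro n
  induction n with
  | zero => rfl
  | succ n ih =>
    simp only [rb, F0, ih]

lemma F1_rb (lab : List ℕ → ℕ) (f : ℕ → ℕ) :
    ∀ n, F1 lab (rb f n) = rb (fun n => lab (rb f n)) (n + 1) := by
  intro n
  induction n with
  | zero => rfl
  | succ n ih =>
    rw [rb, F1, ih, rb, rb]
    rfl

end Q214.SG
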