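import Pool.Agent.Q214.SG.Shift
import Pool.Agent.Q214.SG.Trees

/-!
# Bounded witnesses

Helper file for MP_bd9785.
-/

set_option autoImplicit false

open Set MeasureTheory Topology

namespace Q214.SG

/-! ### Clopen conditions on nodes -/

section Clopen

variable {Z : Type} [TopologicalSpace Z]

lemma cont_nat {f : Z → ℕ} (h : ∀ n, IsOpen {z | f z = n}) : Continuous f :=
  continuous_discrete_rng.2 h

lemma clopen_eq {f : Z → ℕ} (h : Continuous f) (n : ℕ) : IsClopen {z | f z = n} :=
  (isClopen_discrete {n}).preimage h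

lemma clopen_rb {f : Z → ℕ → ℕ} (h : Continuous f) (k : ℕ) (u : List ℕ) :
    IsClopen {z | rb (f z) k = u} := by
  induction k generalizing u with
  | zero =>
    by_cases hu : u = []
    · subst hu
      simpa [rb] using isClopen_univ
    · have : {z | rb (f z) 0 = u} = ∅ := by
        ext z
        simp only [rb, mem_ofPred_eq, mem_empty_iff_false, iff_false]
        exact fun h => hu h.symm
      rw [this]
      exact isClopen_empty
  | succ k ih =>
    cases u with
    | nil =>
      have : {z | rb (f z) (k + 1) = []} = ∅ := by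
        ext z
        simp [rb]
      rw [this]
      exact isClopen_empty
    | cons n a =>
      have : {z | rb (f z) (k + 1) = n :: a} = {z | f z k = n} ∩ {z | rb (f z) k = a} := by
        ext z
        simp [rb]
      rw [this]
      exact (clopen_eq ((continuous_apply k).comp h) n).inter (ih a)

/-- A function which depends continuously on a node. -/
lemma clopen_node {Y : Type} {f : Z → Y} (h : ∀ u : Y, IsClopen {z | f z = u})
    {p : Z → Y → Prop} (hp : ∀ u, IsClopen {z | p z u}) : IsClopen {z | p z (f z)} := by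
  have h1 : ∀ q : Z → Y → Prop, (∀ u, IsOpen {z | q z u}) → IsOpen {z | q z (f z)} := by
    intro q hq
    have : {z | q z (f z)} = ⋃ u, ({z | f z = u} ∩ {z | q z u}) := by
      ext z
      simp
    rw [this]
    exact isOpen_iUnion fun u => (h u).2.inter (hq u)
  refine ⟨?_, h1 p fun u => (hp u).2⟩
  rw [← isOpen_compl_iff]
  exact h1 (fun z u => ¬ p z u) fun u => (hp u).1.isOpen_compl

lemma clopen_F0 {lab : Z → List ℕ → ℕ} (h : ∀ l n, IsClopen {z | lab z l = n}) (s u : List ℕ) :
    IsClopen {z | F0 (lab z) s = u} := by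
  induction s generalizing u with
  | nil =>
    by_cases hu : u = []
    · subst hu
      simpa [F0] using isClopen_univ
    · have : {z | F0 (lab z) [] = u} = ∅ := by
        ext z
        simp only [F0, mem_ofPred_eq, mem_empty_iff_false, iff_false]
        exact fun h => hu h.symm
      rw [this]
      exact isClopen_empty
  | cons m a ih =>
    cases u with
    | nil =>
      have : {z | F0 (lab z) (m :: a) = []} = ∅ := by
        ext z
        simp [F0]
      rw [this]
      exact isClopen_empty
    | cons n b =>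
      have : {z | F0 (lab z) (m :: a) = n :: b} =
          {z | lab z (m :: a) = n} ∩ {z | F0 (lab z) a = b} := by
        ext z
        simp [F0]
      rw [this]
      exact (h _ _).inter (ih b)

lemma clopen_F1 {lab : Z → List ℕ → ℕ} (h : ∀ l n, IsClopen {z | lab z l = n}) (s u : List ℕ) :
    IsClopen {z | F1 (lab z) s = u} := by
  induction s generalizing u with
  | nil =>
    rcases u with _ | ⟨n, _ | ⟨m, b⟩⟩
    · have : {z | F1 (lab z) [] = []} = ∅ := by
        ext z
        simp [F1]
      rw [this]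
      exact isClopen_empty
    · have : {z | F1 (lab z) [] = [n]} = {z | lab z [] = n} := by
        ext z
        simp [F1]
      rw [this]
      exact h _ _
    · have : {z | F1 (lab z) [] = n :: m :: b} = ∅ := by
        ext z
        simp [F1]
      rw [this]
      exact isClopen_empty
  | cons m a ih =>
    cases u with
    | nil =>
      have : {z | F1 (lab z) (m :: a) = []} = ∅ := by
        ext z
        simp [F1]
      rw [this]
      exact isClopen_empty
    | cons n b =>
      have : {z | F1 (lab z) (m :: a) = n :: b} =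
          {z | lab z (m :: a) = n} ∩ {z | F1 (lab z) a = b} := by
        ext z
        simp [F1]
      rw [this]
      exact (h _ _).inter (ih b)

end Clopen

/-! ### The trees coded by a point of the Baire space -/

/-- The code `x` allows the pair `(u, w)` for the `i`-th tree. -/
def code (x : ℕ → ℕ) (i : ℕ) (u w : List ℕ) : Prop := x (2 * Encodable.encode (u, w) + i) = 0

/-- The nodes of the `i`-th tree coded by `x`. -/
def inTr (x : ℕ → ℕ) (i : ℕ) : List ℕ → Prop
  | [] => code x i [] []
  | n :: a => code x i (rb x (a.length + 1)) (n :: a) ∧ inTr x i a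

lemma isTr (x : ℕ → ℕ) (i : ℕ) : IsTr {s | inTr x i s} := fun _ _ h => h.2

lemma inTr_rb (x : ℕ → ℕ) (i : ℕ) (f : ℕ → ℕ) :
    (∀ n, inTr x i (rb f n)) ↔ ∀ n, code x i (rb x n) (rb f n) := by
  constructor
  · intro h n
    cases n with
    | zero => exact h 0
    | succ n =>
      have := (h (n + 1)).1
      rw [rb_length] at this
      exact this
  · intro h n
    induction n with
    | zero => exact h 0
    | succ n ih =>
      refine ⟨?_, ih⟩
      rw [rb_length]
      exact h (n + 1)

lemma clopen_inTr {Z : Type} [TopologicalSpace Z] {x : Z → ℕ → ℕ} (hx : Continuous x) (i : ℕ)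
    (s : List ℕ) : IsClopen {z | inTr (x z) i s} := by
  induction s with
  | nil => exact clopen_eq ((continuous_apply _).comp hx) 0
  | cons n a ih =>
    refine IsClopen.inter ?_ ih
    exact clopen_node (f := fun z => rb (x z) (a.length + 1)) (fun u => clopen_rb hx _ u)
      (p := fun z u => code (x z) i u (n :: a))
      (fun u => clopen_eq ((continuous_apply _).comp hx) 0)

/-- The labels coded by `b`. -/
def lab (b : ℕ → ℕ) (l : List ℕ) : ℕ := b (Encodable.encode l)

/-- Witnesses for the comparison of the two trees of `x`. -/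
def W0 : Set ((ℕ → ℕ) × (ℕ → ℕ)) := {p | ∀ s, inTr p.1 0 s → inTr p.1 1 (F0 (lab p.2) s)}

/-- Witnesses for the comparison of the two trees of `x`. -/
def W1 : Set ((ℕ → ℕ) × (ℕ → ℕ)) := {p | ∀ t, inTr p.1 1 t → inTr p.1 0 (F1 (lab p.2) t)}

lemma clopen_lab (l : List ℕ) (n : ℕ) :
    IsClopen {p : (ℕ → ℕ) × (ℕ → ℕ) | lab p.2 l = n} :=
  clopen_eq ((continuous_apply _).comp continuous_snd) n

lemma isClosed_W0 : IsClosed W0 := by
  have h : W0 = ⋂ s, {p | inTr p.1 0 s}ᶜ ∪ {p | inTr p.1 1 (F0 (lab p.2) s)} := by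
    ext p
    simp only [W0, mem_ofPred_eq, mem_iInter, mem_union, mem_compl_iff]
    refine forall_congr' fun s => ?_
    tauto
  rw [h]
  refine isClosed_iInter fun s => IsClosed.union ?_ ?_
  · exact (clopen_inTr continuous_fst 0 s).2.isClosed_compl
  · exact (clopen_node (f := fun p : (ℕ → ℕ) × (ℕ → ℕ) => F0 (lab p.2) s)
      (fun u => clopen_F0 (lab := fun p : (ℕ → ℕ) × (ℕ → ℕ) => lab p.2) clopen_lab s u)
      (p := fun p u => inTr p.1 1 u)
      (fun u => clopen_inTr continuous_fst 1 u)).1

lemma isClosed_W1 : IsClosed W1 := by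
  have h : W1 = ⋂ s, {p | inTr p.1 1 s}ᶜ ∪ {p | inTr p.1 0 (F1 (lab p.2) s)} := by
    ext p
    simp only [W1, mem_ofPred_eq, mem_iInter, mem_union, mem_compl_iff]
    refine forall_congr' fun s => ?_
    tauto
  rw [h]
  refine isClosed_iInter fun s => IsClosed.union ?_ ?_
  · exact (clopen_inTr continuous_fst 1 s).2.isClosed_compl
  · exact (clopen_node (f := fun p : (ℕ → ℕ) × (ℕ → ℕ) => F1 (lab p.2) s)
      (fun u => clopen_F1 (lab := fun p : (ℕ → ℕ) × (ℕ → ℕ) => lab p.2) clopen_lab s u)
      (p := fun p u => inTr p.1 0 u)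
      (fun u => clopen_inTr continuous_fst 0 u)).1

/-- One of the two witnesses exists. -/
theorem exists_witness (x : ℕ → ℕ) : ∃ b, (x, b) ∈ W0 ∪ W1 := by
  have hcode : ∀ l : List ℕ → ℕ, ∃ b : ℕ → ℕ, lab b = l := by
    intro l
    classical
    refine ⟨fun n => match Encodable.decode (α := List ℕ) n with
      | some s => l s
      | none => 0, ?_⟩
    funext s
    simp [lab]
  rcases compare (isTr x 0) (isTr x 1) with ⟨l, hl⟩ | ⟨l, hl⟩
  · obtain ⟨b, rfl⟩ := hcode l
    exact ⟨b, Or.inl fun s hs => hl s hs⟩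
  · obtain ⟨b, rfl⟩ := hcode l
    exact ⟨b, Or.inr fun s hs => hl s hs⟩

/-! ### Bounded witnesses -/

lemma cont_cnt (m : ℕ) : Continuous fun y : InfSub => cnt y m := by
  have hc : ∀ n, Continuous fun y : InfSub => y.1 n := fun n =>
    (continuous_apply n).comp continuous_subtype_val
  induction m with
  | zero =>
    have : (fun y : InfSub => cnt y 0) = fun _ => 0 := by
      funext y
      simp [cnt]
    rw [this]
    exact continuous_const
  | succ m ih =>
    have h1 : (fun y : InfSub => cnt y (m + 1)) =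
        (fun p : ℕ × Bool => p.1 + if p.2 = true then 1 else 0) ∘
          fun y : InfSub => (cnt y m, y.1 m) := by
      funext y
      simp only [cnt, Nat.count_succ, Function.comp]
    rw [h1]
    exact continuous_of_discreteTopology.comp (ih.prodMk (hc m))

lemma clopen_cnt (m k : ℕ) : IsClopen {y : InfSub | k < cnt y m} :=
  (isClopen_discrete {n | k < n}).preimage (cont_cnt m)

lemma exists_cnt (y : InfSub) (k : ℕ) : ∃ j, k < cnt y (j + 1) := by
  refine ⟨mn (shift^[k + 1] y), ?_⟩
  have h1 := cnt_mn_iter y (k + 1)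
  have h2 := cnt_mono y (Nat.le_succ (mn (shift^[k + 1] y)))
  simp only [Nat.succ_eq_add_one] at h2
  omega

lemma beta_ex (k : ℕ) (y : InfSub) (c : ℕ → ℕ → Bool) (n : ℕ) :
    ∃ j, c n j = true ∨ n + k < cnt y (j + 1) := by
  obtain ⟨j, hj⟩ := exists_cnt y (n + k)
  exact ⟨j, Or.inr hj⟩

/-- The `k`-bounded function coded by `c`. -/
noncomputable def beta (k : ℕ) (y : InfSub) (c : ℕ → ℕ → Bool) (n : ℕ) : ℕ :=
  Nat.find (beta_ex k y c n)

lemma beta_le (k : ℕ) (y : InfSub) (c : ℕ → ℕ → Bool) (n : ℕ) :
    cnt y (beta k y c n) ≤ n + k := by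
  by_contra hcon
  rcases Nat.eq_zero_or_pos (beta k y c n) with h | h
  · rw [h] at hcon
    simp [cnt] at hcon
  · obtain ⟨j, hj⟩ : ∃ j, beta k y c n = j + 1 := ⟨beta k y c n - 1, by omega⟩
    rw [hj] at hcon
    refine Nat.find_min (beta_ex k y c n) (m := j) ?_ (Or.inr (not_le.1 hcon))
    change j < beta k y c n
    omega

lemma exists_beta (k : ℕ) (y : InfSub) (b : ℕ → ℕ) (hb : ∀ n, cnt y (b n) ≤ n + k) :
    ∃ c, beta k y c = b := by
  refine ⟨fun n j => decide (j = b n), funext fun n => ?_⟩
  rw [beta, Nat.find_eq_iff]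
  refine ⟨Or.inl (by simp), fun j hj => ?_⟩
  rintro (h | h)
  · simp only [decide_eq_true_eq] at h
    omega
  · have h1 := cnt_mono y (show j + 1 ≤ b n by omega)
    have h2 := hb n
    omega

lemma cont_beta (k : ℕ) : Continuous fun p : InfSub × (ℕ → ℕ → Bool) => beta k p.1 p.2 := by
  refine continuous_pi fun n => cont_nat fun j => ?_
  have hQ : ∀ j, IsClopen {p : InfSub × (ℕ → ℕ → Bool) |
      p.2 n j = true ∨ n + k < cnt p.1 (j + 1)} := by
    intro j
    refine IsClopen.union ?_ ?_
    · exact (isClopen_discrete {b : Bool | b = true}).preimage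
        ((continuous_apply j).comp ((continuous_apply n).comp continuous_snd))
    · exact (clopen_cnt (j + 1) (n + k)).preimage continuous_fst
  have h : {p : InfSub × (ℕ → ℕ → Bool) | beta k p.1 p.2 n = j} =
      {p | p.2 n j = true ∨ n + k < cnt p.1 (j + 1)} ∩
        ⋂ i : Fin j, {p | p.2 n i = true ∨ n + k < cnt p.1 (i + 1)}ᶜ := by
    ext p
    simp only [mem_ofPred_eq, mem_inter_iff, mem_iInter, mem_compl_iff]
    rw [beta, Nat.find_eq_iff]
    constructor
    · rintro ⟨h1, h2⟩
      exact ⟨h1, fun i => h2 i i.2⟩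
    · rintro ⟨h1, h2⟩
      exact ⟨h1, fun i hi => h2 ⟨i, hi⟩⟩
  rw [h]
  exact (hQ j).2.inter (isOpen_iInter_of_finite fun i => (hQ i).1.isOpen_compl)

/-- Points with a bounded witness in `C`. -/
def Bdd (C : Set ((ℕ → ℕ) × (ℕ → ℕ))) (k : ℕ) : Set ((ℕ → ℕ) × InfSub) :=
  {p | ∃ b, (p.1, b) ∈ C ∧ ∀ n, cnt p.2 (b n) ≤ n + k}

theorem isClosed_bdd {C : Set ((ℕ → ℕ) × (ℕ → ℕ))} (hC : IsClosed C) (k : ℕ) :
    IsClosed (Bdd C k) := by
  have h : Bdd C k = Prod.fst ''
      {q : ((ℕ → ℕ) × InfSub) × (ℕ → ℕ → Bool) | (q.1.1, beta k q.1.2 q.2) ∈ C} := by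
    ext p
    constructor
    · rintro ⟨b, hb, hb2⟩
      obtain ⟨c, rfl⟩ := exists_beta k p.2 b hb2
      exact ⟨(p, c), hb, rfl⟩
    · rintro ⟨⟨p', c⟩, hq, rfl⟩
      exact ⟨_, hq, beta_le k _ c⟩
  rw [h]
  refine isClosedMap_fst_of_compactSpace _ (hC.preimage ?_)
  refine Continuous.prodMk (continuous_fst.comp continuous_fst) ?_
  exact (cont_beta k).comp ((continuous_snd.comp continuous_fst).prodMk continuous_snd)

end Q214.SG
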