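import Mathlib

/-!
# Infinite subsets of `ℕ`, the shift, and finite colourings

Helper file for MP_bd9785.
-/

set_option autoImplicit false

open Set MeasureTheory Topology

namespace Q214.SG

/-- Infinite subsets of `ℕ`, as points of `2^ℕ`. -/
abbrev InfSub : Type := {y : ℕ → Bool // {n | y n = true}.Infinite}

/-- The least element of `y`. -/
noncomputable def mn (y : InfSub) : ℕ := sInf {n | y.1 n = true}

lemma mn_mem (y : InfSub) : y.1 (mn y) = true := Nat.sInf_mem y.2.nonempty

lemma mn_le {y : InfSub} {n : ℕ} (h : y.1 n = true) : mn y ≤ n := Nat.sInf_le h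

/-- The shift `y ↦ y ∖ {min y}`. -/
noncomputable def shift (y : InfSub) : InfSub :=
  ⟨fun n => y.1 n && decide (n ≠ sInf {m | y.1 m = true}), by
    have h : {n | (y.1 n && decide (n ≠ sInf {m | y.1 m = true})) = true} =
        {n | y.1 n = true} \ {sInf {m | y.1 m = true}} := by
      ext n
      simp
    rw [h]
    exact y.2.sdiff (finite_singleton _)⟩

lemma shift_apply (y : InfSub) (n : ℕ) : (shift y).1 n = true ↔ y.1 n = true ∧ n ≠ mn y := by
  simp [shift, mn]

lemma mn_lt_shift (y : InfSub) : mn y < mn (shift y) := by
  have h := (shift_apply y _).1 (mn_mem (shift y))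
  exact lt_of_le_of_ne (mn_le h.1) (Ne.symm h.2)

lemma shift_apply' (y : InfSub) (n : ℕ) :
    (shift y).1 n = true ↔ y.1 n = true ∧ ∃ m < n, y.1 m = true := by
  rw [shift_apply]
  refine and_congr_right fun h => ⟨fun h2 => ⟨mn y, lt_of_le_of_ne (mn_le h) (Ne.symm h2),
    mn_mem y⟩, ?_⟩
  rintro ⟨m, hm, hm2⟩ rfl
  exact absurd (mn_le hm2) (not_le.2 hm)

/-- Number of elements of `y` below `m`. -/
noncomputable def cnt (y : InfSub) (m : ℕ) : ℕ := Nat.count (fun n => y.1 n = true) m

lemma cnt_mono (y : InfSub) {m n : ℕ} (h : m ≤ n) : cnt y m ≤ cnt y n := Nat.count_monotone _ h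

lemma cnt_shift (y : InfSub) (m : ℕ) (h : mn y < m) : cnt y m = cnt (shift y) m + 1 := by
  induction m, h using Nat.le_induction with
  | base =>
    have h0 : ∀ k ≤ mn y, cnt y k = 0 ∧ cnt (shift y) k = 0 := by
      intro k
      induction k with
      | zero => simp [cnt]
      | succ k ih =>
        intro hk
        obtain ⟨h1, h2⟩ := ih (by omega)
        have h3 : ¬ y.1 k = true := fun h => absurd (mn_le h) (by omega)
        have h4 : ¬ (shift y).1 k = true := fun h => h3 ((shift_apply y k).1 h).1
        constructor
        · rw [cnt, Nat.count_succ, if_neg h3, add_zero]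
          exact h1
        · rw [cnt, Nat.count_succ, if_neg h4, add_zero]
          exact h2
    obtain ⟨h1, h2⟩ := h0 (mn y) le_rfl
    have h3 : ¬ (shift y).1 (mn y) = true := fun h => ((shift_apply y _).1 h).2 rfl
    rw [cnt, cnt, Nat.count_succ, Nat.count_succ, if_pos (mn_mem y), if_neg h3]
    change cnt y (mn y) + 1 = cnt (shift y) (mn y) + 0 + 1
    rw [h1, h2]
  | succ m hm ih =>
    rw [cnt, cnt, Nat.count_succ, Nat.count_succ]
    change cnt y m + _ = cnt (shift y) m + _ + 1
    rw [ih]
    have h : y.1 m = true ↔ (shift y).1 m = true := by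
      rw [shift_apply]
      exact ⟨fun h => ⟨h, by omega⟩, fun h => h.1⟩
    by_cases h2 : y.1 m = true
    · rw [if_pos h2, if_pos (h.1 h2)]
    · rw [if_neg h2, if_neg (fun h3 => h2 (h.2 h3))]

lemma cnt_mn (y : InfSub) : cnt y (mn y) = 0 := by
  have h0 : ∀ k ≤ mn y, cnt y k = 0 := by
    intro k
    induction k with
    | zero => simp [cnt]
    | succ k ih =>
      intro hk
      have h3 : ¬ y.1 k = true := fun h => absurd (mn_le h) (by omega)
      rw [cnt, Nat.count_succ, if_neg h3, add_zero]
      exact ih (by omega)
  exact h0 _ le_rfl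

lemma mn_iter_lt (y : InfSub) (j : ℕ) : mn (shift^[j] y) < mn (shift^[j + 1] y) := by
  rw [Function.iterate_succ_apply']
  exact mn_lt_shift _

lemma mn_iter_ge (y : InfSub) (j : ℕ) : j ≤ mn (shift^[j] y) := by
  induction j with
  | zero => exact Nat.zero_le _
  | succ j ih => exact Nat.succ_le_of_lt (lt_of_le_of_lt ih (mn_iter_lt y j))

lemma cnt_mn_iter (y : InfSub) (j : ℕ) : cnt y (mn (shift^[j] y)) = j := by
  induction j generalizing y with
  | zero => exact cnt_mn y
  | succ j ih =>
    rw [Function.iterate_succ_apply, cnt_shift, ih]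
    have : ∀ j, mn y < mn (shift^[j] (shift y)) := by
      intro j
      induction j with
      | zero => exact mn_lt_shift y
      | succ j ihj => exact lt_trans ihj (mn_iter_lt _ j)
    exact this j

/-! ### Measurability and continuity -/

lemma measurable_eval (n : ℕ) : Measurable fun y : InfSub => y.1 n :=
  (measurable_pi_apply n).comp measurable_subtype_coe

lemma measurable_shift : Measurable shift := by
  refine Measurable.subtype_mk (measurable_pi_lambda _ fun n => ?_)
  refine measurable_to_bool ?_
  have h : (fun y : InfSub => (y.1 n && decide (n ≠ sInf {m | y.1 m = true}))) ⁻¹' {true} =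
      {y : InfSub | y.1 n = true} ∩ ⋃ m, ⋃ _ : m < n, {y : InfSub | y.1 m = true} := by
    ext y
    have := shift_apply' y n
    simp only [shift] at this
    simp only [mem_preimage, mem_singleton_iff, mem_inter_iff, mem_ofPred_eq, mem_iUnion]
    rw [this]
    simp
  rw [h]
  refine (measurable_eval n (measurableSet_singleton true)).inter (MeasurableSet.iUnion fun m =>
    MeasurableSet.iUnion fun _ => measurable_eval m (measurableSet_singleton true))

lemma measurable_mn : Measurable mn := by
  refine measurable_to_countable' fun n => ?_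
  have h : mn ⁻¹' {n} = {y : InfSub | y.1 n = true} ∩ ⋂ m, ⋂ _ : m < n,
      {y : InfSub | y.1 m = true}ᶜ := by
    ext y
    simp only [mem_preimage, mem_singleton_iff, mem_inter_iff, mem_ofPred_eq, mem_iInter,
      mem_compl_iff]
    constructor
    · rintro rfl
      exact ⟨mn_mem y, fun m hm h => absurd (mn_le h) (not_le.2 hm)⟩
    · rintro ⟨h1, h2⟩
      refine le_antisymm (mn_le h1) ?_
      by_contra hcon
      exact h2 _ (not_le.1 hcon) (mn_mem y)
  rw [h]
  exact (measurable_eval n (measurableSet_singleton true)).inter (MeasurableSet.iInter fun m =>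
    MeasurableSet.iInter fun _ => (measurable_eval m (measurableSet_singleton true)).compl)

/-! ### A general colouring lemma -/

section Colour

variable {X : Type} [MeasurableSpace X]

open Classical in
/-- The first time the orbit of `x` is in `P`. -/
noncomputable def first (S : X → X) (P : Set X) (x : X) : ℕ :=
  if h : ∃ j, S^[j] x ∈ P then Nat.find h else 0

lemma measurable_first {S : X → X} (hS : Measurable S) {P : Set X} (hP : MeasurableSet P) :
    Measurable (first S P) := by
  classical
  have hm : ∀ j, MeasurableSet {x | S^[j] x ∈ P} := fun j => (hS.iterate j) hP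
  refine measurable_to_countable' fun n => ?_
  have h : first S P ⁻¹' {n} = ({x | S^[n] x ∈ P} ∩ ⋂ j, ⋂ _ : j < n, {x | S^[j] x ∈ P}ᶜ) ∪
      (⋂ j, {x | S^[j] x ∈ P}ᶜ) ∩ {_x | n = 0} := by
    ext x
    simp only [mem_preimage, mem_singleton_iff, mem_union, mem_inter_iff, mem_ofPred_eq,
      mem_iInter, mem_compl_iff]
    by_cases h : ∃ j, S^[j] x ∈ P
    · have h1 : first S P x = Nat.find h := dif_pos h
      rw [h1, Nat.find_eq_iff]
      constructor
      · intro h2
        exact Or.inl h2
      · rintro (h2 | ⟨h2, -⟩)
        · exact h2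
        · exact absurd h (by push Not; exact h2)
    · have h1 : first S P x = 0 := dif_neg h
      push Not at h
      rw [h1]
      constructor
      · rintro rfl
        exact Or.inr ⟨h, rfl⟩
      · rintro (⟨h2, -⟩ | ⟨-, h2⟩)
        · exact absurd h2 (h n)
        · exact h2.symm
  rw [h]
  refine ((hm n).inter (MeasurableSet.iInter fun j => MeasurableSet.iInter fun _ =>
    (hm j).compl)).union ((MeasurableSet.iInter fun j => (hm j).compl).inter
      (MeasurableSet.const _))

omit [MeasurableSpace X] in
lemma first_succ {S : X → X} {P : Set X} {x : X} (h : ∃ j, S^[j] x ∈ P) (hx : x ∉ P) :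
    first S P x = first S P (S x) + 1 := by
  classical
  obtain ⟨j, hj⟩ := h
  have h' : ∃ j, S^[j] x ∈ P := ⟨j, hj⟩
  cases j with
  | zero => exact absurd hj hx
  | succ j =>
    rw [Function.iterate_succ_apply] at hj
    have h2 : ∃ j, S^[j] (S x) ∈ P := ⟨j, hj⟩
    have h1 : first S P x = Nat.find h' := dif_pos h'
    have h3 : first S P (S x) = Nat.find h2 := dif_pos h2
    rw [h1, h3]
    rw [Nat.find_eq_iff]
    refine ⟨?_, ?_⟩
    · rw [Function.iterate_succ_apply]
      exact Nat.find_spec h2
    · intro i hi
      cases i with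
      | zero => exact hx
      | succ i =>
        rw [Function.iterate_succ_apply]
        exact Nat.find_min h2 (by omega)

/-- If the orbit of each point of `A` meets `P` and the orbit of every point meets the complement of
`P` then there is a measurable map with four values which separates `x` from `S x`, `x ∈ A`. -/
theorem exists_colour {S : X → X} (hS : Measurable S) {P : Set X} (hP : MeasurableSet P)
    (A : Set X) (h1 : ∀ x ∈ A, ∃ j, S^[j] x ∈ P) (h2 : ∀ x, ∃ j, S^[j] x ∉ P) :
    ∃ c : X → Fin 4, Measurable c ∧ ∀ x ∈ A, c x ≠ c (S x) := by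
  classical
  let a : ℕ → Fin 4 := fun n => if n % 2 = 0 then 0 else 1
  let b : ℕ → Fin 4 := fun n => if n % 2 = 0 then 2 else 3
  have ha : ∀ n, a (n + 1) ≠ a n := by
    intro n
    rcases Nat.mod_two_eq_zero_or_one n with h | h
    · have h' : (n + 1) % 2 = 1 := by omega
      simp [a, h, h']
    · have h' : (n + 1) % 2 = 0 := by omega
      simp [a, h, h']
  have hb : ∀ n, b (n + 1) ≠ b n := by
    intro n
    rcases Nat.mod_two_eq_zero_or_one n with h | h
    · have h' : (n + 1) % 2 = 1 := by omega
      simp [b, h, h']
    · have h' : (n + 1) % 2 = 0 := by omega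
      simp [b, h, h']
  have hab : ∀ n m, a n ≠ b m := by
    intro n m
    rcases Nat.mod_two_eq_zero_or_one n with h | h <;>
      rcases Nat.mod_two_eq_zero_or_one m with h' | h' <;> simp [a, b, h, h']
  refine ⟨fun x => if x ∈ P then b (first S Pᶜ x) else a (first S P x), ?_, ?_⟩
  · refine Measurable.ite hP ?_ ?_
    · exact (measurable_of_countable b).comp (measurable_first hS hP.compl)
    · exact (measurable_of_countable a).comp (measurable_first hS hP)
  · intro x hx
    by_cases hxP : x ∈ P
    · by_cases hSP : S x ∈ P
      · have h3 : first S Pᶜ x = first S Pᶜ (S x) + 1 :=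
          first_succ (h2 x) (by simpa using hxP)
        simp only [hxP, hSP, if_true]
        rw [h3]
        exact hb _
      · simp only [hxP, hSP, if_true, if_false]
        exact (hab _ _).symm
    · by_cases hSP : S x ∈ P
      · simp only [hxP, hSP, if_true, if_false]
        exact hab _ _
      · have h3 : first S P x = first S P (S x) + 1 := first_succ (h1 x hx) hxP
        simp only [hxP, hSP, if_false]
        rw [h3]
        exact ha _

end Colour

/-! ### Non-dominating sets have a finite colouring -/

/-- The sets `y` whose counting function is not bounded by the inverse of `b`. -/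
def Slow (b : ℕ → ℕ) : Set InfSub := {y | ∀ k, ∃ n, n + k < cnt y (b n)}

theorem slow_colour (b : ℕ → ℕ) :
    ∃ c : InfSub → Fin 4, Measurable c ∧ ∀ y ∈ Slow b, c y ≠ c (shift y) := by
  classical
  -- a strictly increasing function above `b`
  let g : ℕ → ℕ := fun n => (∑ i ∈ Finset.range (n + 1), b i) + n + 1
  have hgb : ∀ n, b n ≤ g n := by
    intro n
    have : b n ≤ ∑ i ∈ Finset.range (n + 1), b i :=
      Finset.single_le_sum (fun i _ => Nat.zero_le (b i)) (Finset.mem_range.2 (Nat.lt_succ_self n))
    simp only [g]
    omega
  have hgn : ∀ n, n < g n := by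
    intro n
    simp only [g]
    omega
  have hgm : Monotone g := by
    intro m n hmn
    have : ∑ i ∈ Finset.range (m + 1), b i ≤ ∑ i ∈ Finset.range (n + 1), b i :=
      Finset.sum_le_sum_of_subset (Finset.range_mono (by omega))
    simp only [g]
    omega
  -- the index of the interval of `m`
  have hex : ∀ m, ∃ n, m < g n := fun m => ⟨m, hgn m⟩
  let N : ℕ → ℕ := fun m => Nat.find (hex m)
  have hN1 : ∀ m, m < g (N m) := fun m => Nat.find_spec (hex m)
  have hN2 : ∀ m n, m < g n → N m ≤ n := fun m n h => Nat.find_min' (hex m) h
  have hNm : Monotone N := fun m m' h => hN2 m _ (lt_of_le_of_lt h (hN1 m'))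
  let P : Set InfSub := {y | N (mn y) = N (mn (shift y))}
  have hP : MeasurableSet P :=
    measurableSet_eq_fun ((measurable_of_countable N).comp measurable_mn)
      ((measurable_of_countable N).comp (measurable_mn.comp measurable_shift))
  refine exists_colour measurable_shift hP (Slow b) ?_ ?_
  · intro y hy
    by_contra hcon
    push Not at hcon
    -- the indices are strictly increasing
    have h1 : ∀ j, j ≤ N (mn (shift^[j] y)) := by
      intro j
      induction j with
      | zero => exact Nat.zero_le _
      | succ j ih =>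
        have h2 : N (mn (shift^[j] y)) ≠ N (mn (shift^[j + 1] y)) := by
          have := hcon j
          rw [Function.iterate_succ_apply']
          exact this
        have h3 : N (mn (shift^[j] y)) ≤ N (mn (shift^[j + 1] y)) := hNm (mn_iter_lt y j).le
        omega
    obtain ⟨n, hn⟩ := hy 1
    have h2 : n + 1 < cnt y (g n) := lt_of_lt_of_le hn (cnt_mono y (hgb n))
    have h3 : mn (shift^[n + 1] y) < g n := by
      by_contra h4
      have := cnt_mono y (not_lt.1 h4)
      rw [cnt_mn_iter] at this
      omega
    have h4 := hN2 _ _ h3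
    have h5 := h1 (n + 1)
    omega
  · intro y
    by_contra hcon
    push Not at hcon
    have h1 : ∀ j, N (mn (shift^[j] y)) = N (mn y) := by
      intro j
      induction j with
      | zero => rfl
      | succ j ih =>
        have := hcon j
        simp only [P, mem_ofPred_eq] at this
        rw [Function.iterate_succ_apply', ← this]
        exact ih
    have h2 := hN1 (mn (shift^[g (N (mn y))] y))
    rw [h1] at h2
    have := mn_iter_ge y (g (N (mn y)))
    omega

end Q214.SG
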